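import Mathlib
import Pool.Agent.Helper86.Acute.Geo

/-! Packet PERT of MP_1a78aa_co: a generic perturbation keeps the acute triangles. -/

namespace Pool.Agent.Helper80.Acute

open Filter Topology Pool.Agent.Helper86.Acute

lemma quad_finite {a b c : ℝ} (hc : c ≠ 0) : {e : ℝ | a + b * e + c * e ^ 2 = 0}.Finite := by
  have hp : (Polynomial.C a + Polynomial.C b * Polynomial.X +
      Polynomial.C c * Polynomial.X ^ 2 : Polynomial ℝ) ≠ 0 := by
    intro h
    have := congrArg (fun p => Polynomial.coeff p 2) h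
    simp at this
    exact hc this
  refine (Polynomial.finite_setOfPred_isRoot hp).subset ?_
  intro e he
  simp only [Set.mem_ofPred_eq, Polynomial.IsRoot.def, Polynomial.eval_add, Polynomial.eval_mul,
    Polynomial.eval_C, Polynomial.eval_X, Polynomial.eval_pow] at he ⊢
  exact he

lemma quad_ev {a b c : ℝ} (hc : c ≠ 0) : ∀ᶠ e : ℝ in 𝓝[≠] 0, a + b * e + c * e ^ 2 ≠ 0 := by
  have hf : ({e : ℝ | a + b * e + c * e ^ 2 = 0} \ {0}).Finite := (quad_finite hc).subset
    Set.sdiff_subset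
  have ho : ∀ᶠ e : ℝ in 𝓝 0, e ∉ ({e : ℝ | a + b * e + c * e ^ 2 = 0} \ {0}) :=
    hf.isClosed.isOpen_compl.mem_nhds (by simp)
  have h1 : ∀ᶠ e : ℝ in 𝓝[≠] 0, e ∉ ({e : ℝ | a + b * e + c * e ^ 2 = 0} \ {0}) :=
    ho.filter_mono nhdsWithin_le_nhds
  filter_upwards [h1, self_mem_nhdsWithin] with e he hne h0
  exact he ⟨h0, hne⟩

theorem pert : PertStmt := by
  intro n P hP
  set x : Fin n → ℝ := fun i => P i 0 with hx
  set y : Fin n → ℝ := fun i => P i 1 with hy
  let XX : ℝ → Fin n → ℝ := fun e i => x i + e * ((i : ℕ) : ℝ)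
  let YY : ℝ → Fin n → ℝ := fun e i => y i + e * ((i : ℕ) : ℝ) ^ 2
  have hcast : ∀ i j : Fin n, i ≠ j → (((i : ℕ) : ℝ) - ((j : ℕ) : ℝ)) ≠ 0 := by
    intro i j hij h
    apply hij
    have : ((i : ℕ) : ℝ) = ((j : ℕ) : ℝ) := by linarith
    exact Fin.ext (by exact_mod_cast this)
  have hgen : ∀ᶠ e : ℝ in 𝓝[≠] 0, Gen (XX e) (YY e) := by
    unfold Gen
    rw [Filter.eventually_all]; intro i
    rw [Filter.eventually_all]; intro j
    rw [Filter.eventually_all]; intro k
    by_cases hij : i = j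
    · exact Filter.Eventually.of_forall fun _ h => absurd hij h
    by_cases hik : i = k
    · exact Filter.Eventually.of_forall fun _ _ h => absurd hik h
    by_cases hjk : j = k
    · exact Filter.Eventually.of_forall fun _ _ _ h => absurd hjk h
    have hi0 : (0 : ℝ) ≤ ((i : ℕ) : ℝ) := Nat.cast_nonneg _
    have hj0 : (0 : ℝ) ≤ ((j : ℕ) : ℝ) := Nat.cast_nonneg _
    have hk0 : (0 : ℝ) ≤ ((k : ℕ) : ℝ) := Nat.cast_nonneg _
    have hji := hcast j i (Ne.symm hij)
    have hki := hcast k i (Ne.symm hik)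
    have hkj := hcast k j (Ne.symm hjk)
    have hd2 : (((j : ℕ) : ℝ) - ((i : ℕ) : ℝ)) * (((k : ℕ) : ℝ) - ((i : ℕ) : ℝ)) *
        (1 + (((j : ℕ) : ℝ) + ((i : ℕ) : ℝ)) * (((k : ℕ) : ℝ) + ((i : ℕ) : ℝ))) ≠ 0 := by
      refine mul_ne_zero (mul_ne_zero hji hki) ?_
      positivity
    have hc2 : (((j : ℕ) : ℝ) - ((i : ℕ) : ℝ)) * (((k : ℕ) : ℝ) - ((i : ℕ) : ℝ)) *
        (((k : ℕ) : ℝ) - ((j : ℕ) : ℝ)) ≠ 0 := mul_ne_zero (mul_ne_zero hji hki) hkj
    have e1 := quad_ev (a := (x j - x i) * (x k - x i) + (y j - y i) * (y k - y i))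
      (b := (x j - x i) * (((k : ℕ) : ℝ) - ((i : ℕ) : ℝ)) +
        (((j : ℕ) : ℝ) - ((i : ℕ) : ℝ)) * (x k - x i) +
        (y j - y i) * (((k : ℕ) : ℝ) ^ 2 - ((i : ℕ) : ℝ) ^ 2) +
        (((j : ℕ) : ℝ) ^ 2 - ((i : ℕ) : ℝ) ^ 2) * (y k - y i)) hd2
    have e2 := quad_ev (a := (x j - x i) * (y k - y i) - (y j - y i) * (x k - x i))
      (b := (x j - x i) * (((k : ℕ) : ℝ) ^ 2 - ((i : ℕ) : ℝ) ^ 2) +
        (((j : ℕ) : ℝ) - ((i : ℕ) : ℝ)) * (y k - y i) -
        (y j - y i) * (((k : ℕ) : ℝ) - ((i : ℕ) : ℝ)) -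
        (((j : ℕ) : ℝ) ^ 2 - ((i : ℕ) : ℝ) ^ 2) * (x k - x i)) hc2
    filter_upwards [e1, e2] with e h1 h2 _ _ _
    constructor
    · intro h
      apply h1
      rw [← h]
      simp only [dot, XX, YY]
      ring
    · intro h
      apply h2
      rw [← h]
      simp only [crs, XX, YY]
      ring
  have hang : ∀ a b c : Fin n, EuclideanGeometry.angle (P b) (P a) (P c) < Real.pi / 2 →
      ∀ᶠ e : ℝ in 𝓝[≠] 0, 0 < dot (XX e) (YY e) a b c := by
    intro a b c h
    have hin : 0 < inner ℝ (P b -ᵥ P a) (P c -ᵥ P a) := by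
      rw [EuclideanGeometry.angle, InnerProductGeometry.angle, Real.arccos_lt_pi_div_two] at h
      rcases div_pos_iff.1 h with h | h
      · exact h.1
      · exact absurd h.2 (not_lt.2 (by positivity))
    have hd : 0 < (x b - x a) * (x c - x a) + (y b - y a) * (y c - y a) := by
      have := hin
      simp [EuclideanSpace.inner_eq_star_dotProduct, dotProduct, Fin.sum_univ_two] at this
      simp only [hx, hy]
      linarith
    have hcont : Continuous (fun e : ℝ => dot (XX e) (YY e) a b c) := by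
      simp only [dot, XX, YY]
      fun_prop
    have h0 : dot (XX 0) (YY 0) a b c = (x b - x a) * (x c - x a) + (y b - y a) * (y c - y a) := by
      simp [dot, XX, YY]
    have : ∀ᶠ e : ℝ in 𝓝 0, 0 < dot (XX e) (YY e) a b c := by
      have := hcont.tendsto 0
      refine this.eventually (lt_mem_nhds ?_)
      rw [h0]; exact hd
    exact this.filter_mono nhdsWithin_le_nhds
  have hall : ∀ᶠ e : ℝ in 𝓝[≠] 0, ∀ a b c : Fin n,
      EuclideanGeometry.angle (P b) (P a) (P c) < Real.pi / 2 →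
      0 < dot (XX e) (YY e) a b c := by
    rw [Filter.eventually_all]; intro a
    rw [Filter.eventually_all]; intro b
    rw [Filter.eventually_all]; intro c
    by_cases h : EuclideanGeometry.angle (P b) (P a) (P c) < Real.pi / 2
    · filter_upwards [hang a b c h] with e he _ using he
    · exact Filter.Eventually.of_forall fun _ h' => absurd h' h
  obtain ⟨e, hG, hA⟩ := (hgen.and hall).exists
  refine ⟨XX e, YY e, hG, ?_⟩
  intro i j k hij hik hjk h1 h2 h3
  have d1 := hA i j k h1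
  have d2 := hA j i k h2
  have d3 := hA k i j h3
  unfold st
  rw [if_neg (by tauto), if_neg (by linarith), if_neg (by linarith), if_neg (by linarith)]

end Pool.Agent.Helper80.Acute
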